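import Mathlib

set_option autoImplicit false

namespace Pool.Agent.Results.MP_5f25aa_nt.SixPow

inductive Ex where
  | two : Ex
  | add : Ex → Ex → Ex
  | mul : Ex → Ex → Ex

def Ex.val : Ex → ℕ
  | .two => 2
  | .add a b => a.val + b.val
  | .mul a b => a.val * b.val

def Ex.size : Ex → ℕ
  | .two => 1
  | .add a b => a.size + b.size
  | .mul a b => a.size + b.size

noncomputable def cx (n : ℕ) : ℕ := sInf {k | ∃ e : Ex, e.val = n ∧ e.size = k}

theorem result : ∃ m u r : ℕ, 2 ≤ u ∧ 1 ≤ r ∧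
    (∃ e : Ex, e.val = 2 ^ m * (2 ^ u + 2) ^ r) ∧
    cx (2 ^ m * (2 ^ u + 2) ^ r) < m + (u + 1) * r := by
  let e : Ex :=
    (.mul .two (.mul .two (.mul .two (.mul .two (.mul .two (.mul .two (.mul .two (.mul .two
    (.mul .two (.mul .two (.mul .two (.mul .two (.mul .two (.mul .two (.mul .two (.add .two
    (.mul .two (.mul .two (.mul .two (.mul .two (.mul .two (.mul (.add .two (.mul .two (.mul
    .two (.mul .two (.add .two (.mul .two (.mul .two .two))))))) (.add .two (.mul .two (.mul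
    .two (.add .two (.mul .two (.mul .two (.add .two (.mul .two (.mul .two (.mul .two (.mul .two
    (.mul .two (.mul .two (.mul .two (.mul .two (.mul .two (.mul .two
    .two)))))))))))))))))))))))))))))))))))))))
  have h1 : e.val = 2 ^ 0 * (2 ^ 2 + 2) ^ 16 := by decide +kernel
  have h2 : e.size = 47 := by decide +kernel
  refine ⟨0, 2, 16, le_rfl, by norm_num, ⟨e, h1⟩, ?_⟩
  have h : cx (2 ^ 0 * (2 ^ 2 + 2) ^ 16) ≤ 47 := Nat.sInf_le ⟨e, h1, h2⟩
  omega

end Pool.Agent.Results.MP_5f25aa_nt.SixPow
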